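import Pool.Agent.Helper92.LV.Stmts

/-!
# CP2 : upper bound for the potential (MP_9a3c31_nt)
-/

namespace Pool.Agent.Helper92.LV

open Pool.Agent.Helper42.LS Pool.Agent.Helper42.LK Pool.Agent.Helper54.LS

theorem cp2_core {κ Z Y S : ℂ} (hκ : ‖κ‖ ≤ 1 / 100) (hZ : Z ≠ 0)
    (hY : Y ^ 2 = Z ^ 3 - (2 + κ) * Z ^ 2 + Z) (hS : S = (Y / Z) ^ 2) :
    max (‖Z ^ 2 - 1‖ ^ 2) ‖4 * Y ^ 2‖ ≤ 17 * (max ‖Z‖ 1) ^ 4 ∧
    max (‖Z ^ 2 - 1‖ ^ 2) ‖4 * Y ^ 2‖ ≤ 17 * (max ‖S‖ ‖κ‖) * (max ‖Z‖ 1) ^ 4 := by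
  set M := max ‖Z‖ 1 with hM
  set m := max ‖S‖ ‖κ‖ with hm
  have hM1 : 1 ≤ M := le_max_right _ _
  have hZM : ‖Z‖ ≤ M := le_max_left _ _
  have hM0 : 0 ≤ M := zero_le_one.trans hM1
  have hm0 : 0 ≤ m := (norm_nonneg κ).trans (le_max_right _ _)
  have hZ0 : 0 ≤ ‖Z‖ := norm_nonneg Z
  have p2 : M ^ 2 ≤ M ^ 4 := pow_le_pow_right₀ hM1 (by norm_num)
  have p3 : M ^ 3 ≤ M ^ 4 := pow_le_pow_right₀ hM1 (by norm_num)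
  have p0 : 1 ≤ M ^ 4 := one_le_pow₀ hM1
  have p1 : M ≤ M ^ 4 := le_self_pow₀ hM1 (by norm_num)
  have q2 : ‖Z‖ ^ 2 ≤ M ^ 2 := pow_le_pow_left₀ hZ0 hZM 2
  have q3 : ‖Z‖ ^ 3 ≤ M ^ 3 := pow_le_pow_left₀ hZ0 hZM 3
  have hYS : Y ^ 2 = Z ^ 2 * S := by
    rw [hS]
    field_simp
  have hZS : (Z - 1) ^ 2 = Z * (S + κ) := by
    have h1 : Z ^ 2 * S = Z ^ 3 - (2 + κ) * Z ^ 2 + Z := by rw [← hYS, hY]
    have h2 : Z * (Z - 1) ^ 2 = Z * (Z * (S + κ)) := by linear_combination -h1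
    exact mul_left_cancel₀ hZ h2
  have a1 : ‖Z ^ 2 - 1‖ ≤ 2 * M ^ 2 := by
    calc ‖Z ^ 2 - 1‖ ≤ ‖Z ^ 2‖ + ‖(1 : ℂ)‖ := norm_sub_le _ _
      _ = ‖Z‖ ^ 2 + 1 := by rw [norm_pow, norm_one]
      _ ≤ 2 * M ^ 2 := by
          have : (1 : ℝ) ≤ M ^ 2 := one_le_pow₀ hM1
          linarith
  have a2 : ‖Z ^ 2 - 1‖ ^ 2 ≤ 4 * M ^ 4 := by
    calc ‖Z ^ 2 - 1‖ ^ 2 ≤ (2 * M ^ 2) ^ 2 := pow_le_pow_left₀ (norm_nonneg _) a1 2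
      _ = 4 * M ^ 4 := by ring
  have a3 : ‖4 * Y ^ 2‖ ≤ 17 * M ^ 4 := by
    rw [norm_mul, hY]
    have h4 : ‖(4 : ℂ)‖ = 4 := by norm_num
    have h5 : ‖Z ^ 3 - (2 + κ) * Z ^ 2 + Z‖ ≤ ‖Z‖ ^ 3 + (2 + 1 / 100) * ‖Z‖ ^ 2 + ‖Z‖ := by
      calc ‖Z ^ 3 - (2 + κ) * Z ^ 2 + Z‖ ≤ ‖Z ^ 3‖ + ‖(2 + κ) * Z ^ 2‖ + ‖Z‖ :=
            (norm_add_le _ _).trans (add_le_add_left (norm_sub_le _ _) _)
        _ = ‖Z‖ ^ 3 + ‖2 + κ‖ * ‖Z‖ ^ 2 + ‖Z‖ := by rw [norm_mul, norm_pow, norm_pow]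
        _ ≤ _ := by
            have h6 : ‖2 + κ‖ ≤ 2 + 1 / 100 := by
              refine (norm_add_le _ _).trans ?_
              have : ‖(2 : ℂ)‖ = 2 := by norm_num
              linarith
            gcongr
    rw [h4]
    linarith
  have b1 : ‖Z ^ 2 - 1‖ ^ 2 ≤ 8 * m * M ^ 4 := by
    have h7 : (Z ^ 2 - 1) ^ 2 = (Z * (S + κ)) * (Z + 1) ^ 2 := by
      rw [← hZS]
      ring
    have h8 : ‖S + κ‖ ≤ 2 * m := by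
      refine (norm_add_le _ _).trans ?_
      have := le_max_left ‖S‖ ‖κ‖
      have := le_max_right ‖S‖ ‖κ‖
      linarith
    have h9 : ‖Z + 1‖ ≤ 2 * M := by
      refine (norm_add_le _ _).trans ?_
      rw [norm_one]
      linarith
    calc ‖Z ^ 2 - 1‖ ^ 2 = ‖(Z ^ 2 - 1) ^ 2‖ := (norm_pow _ _).symm
      _ = ‖Z‖ * ‖S + κ‖ * ‖Z + 1‖ ^ 2 := by rw [h7, norm_mul, norm_mul, norm_pow]
      _ ≤ M * (2 * m) * (2 * M) ^ 2 := by gcongr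
      _ = 8 * m * M ^ 3 := by ring
      _ ≤ 8 * m * M ^ 4 := by
          have : 0 ≤ 8 * m := by positivity
          exact mul_le_mul_of_nonneg_left p3 this
  have b2 : ‖4 * Y ^ 2‖ ≤ 4 * m * M ^ 4 := by
    rw [norm_mul, hYS, norm_mul, norm_pow]
    have h4 : ‖(4 : ℂ)‖ = 4 := by norm_num
    have h10 : ‖S‖ ≤ m := le_max_left _ _
    rw [h4]
    calc 4 * (‖Z‖ ^ 2 * ‖S‖) ≤ 4 * (M ^ 2 * m) := by gcongr
      _ = 4 * m * M ^ 2 := by ring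
      _ ≤ 4 * m * M ^ 4 := by
          have : 0 ≤ 4 * m := by positivity
          exact mul_le_mul_of_nonneg_left p2 this
  have hmM : 0 ≤ m * M ^ 4 := by positivity
  refine ⟨max_le (by linarith) a3, max_le (by nlinarith) (by nlinarith)⟩

theorem st_CP2 : ST_CP2 := by
  refine ⟨Real.log 17, Real.log_nonneg (by norm_num), ?_⟩
  intro κ Z Y hκ0 hκ hZ hY0 hY
  obtain ⟨c1, c2⟩ := cp2_core (S := (Y / Z) ^ 2) hκ hZ hY rfl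
  set M := max ‖Z‖ 1 with hM
  have hM1 : 1 ≤ M := le_max_right _ _
  have hM0 : 0 < M := zero_lt_one.trans_le hM1
  have hm0 : 0 < max ‖(Y / Z) ^ 2‖ ‖κ‖ := lt_max_of_lt_right (norm_pos_iff.2 hκ0)
  have hpos : 0 < max (‖Z ^ 2 - 1‖ ^ 2) ‖4 * Y ^ 2‖ :=
    lt_max_of_lt_right (norm_pos_iff.2 (mul_ne_zero (by norm_num) (pow_ne_zero 2 hY0)))
  have d1 := Real.log_le_log hpos c1
  have d2 := Real.log_le_log hpos c2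
  rw [Real.log_mul (by norm_num) (by positivity), Real.log_pow] at d1
  rw [Real.log_mul (by positivity) (by positivity), Real.log_mul (by norm_num) hm0.ne',
    Real.log_pow] at d2
  push_cast at d1 d2
  unfold fk
  rcases le_total 0 (-Real.log (max ‖(Y / Z) ^ 2‖ ‖κ‖)) with h | h
  · rw [max_eq_right h]
    linarith
  · rw [max_eq_left h]
    linarith

end Pool.Agent.Helper92.LV
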