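import Pool.Agent.Helper92.LV.Stmts
import Pool.Agent.Helper71.LK.KGO

/-!
# KGO2 : good places, exact formula (MP_9a3c31_nt)
-/

namespace Pool.Agent.Helper92.LV

open Pool.Agent.Helper42.LS Pool.Agent.Helper42.LK Pool.Agent.Helper54.LS

theorem kgo2_up {F : Type} [Field F] (v : DV F) {A B : F} (hA : v.nr A ≤ 1) (hB : v.nr B ≤ 1)
    (x : F) : max (v.nr (th A B x)) (v.nr (4 * cu A B x)) ≤ (max (v.nr x) 1) ^ 4 := by
  set M := max (v.nr x) 1 with hM
  have hM1 : 1 ≤ M := le_max_right _ _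
  have hxM : v.nr x ≤ M := le_max_left _ _
  have hx0 : 0 ≤ v.nr x := v.nr_nonneg x
  have hM0 : 0 ≤ M := zero_le_one.trans hM1
  have p1 : M ≤ M ^ 4 := le_self_pow₀ hM1 (by norm_num)
  have p2 : M ^ 2 ≤ M ^ 4 := pow_le_pow_right₀ hM1 (by norm_num)
  have p3 : M ^ 3 ≤ M ^ 4 := pow_le_pow_right₀ hM1 (by norm_num)
  have p0 : 1 ≤ M ^ 4 := one_le_pow₀ hM1
  have q1 : ∀ n : ℕ, v.nr x ^ n ≤ M ^ n := fun n => pow_le_pow_left₀ hx0 hxM n
  refine max_le ?_ ?_
  · have e2 : th A B x = x ^ 4 + (-(2 * A * x ^ 2) + (-(8 * B * x) + A ^ 2)) := by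
      unfold th; ring
    rw [e2]
    refine (v.nr_add_le _ _).trans (max_le ?_ ((v.nr_add_le _ _).trans (max_le ?_
      ((v.nr_add_le _ _).trans (max_le ?_ ?_)))))
    · rw [v.nr_pow]
      exact q1 4
    · rw [v.nr_neg, v.nr_mul, v.nr_mul, v.nr_pow]
      calc v.nr 2 * v.nr A * v.nr x ^ 2 ≤ 1 * 1 * M ^ 2 := by
            gcongr
            · exact v.nr_nonneg A
            · exact v.nr_ofNat 2
        _ ≤ M ^ 4 := by linarith
    · rw [v.nr_neg, v.nr_mul, v.nr_mul]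
      calc v.nr 8 * v.nr B * v.nr x ≤ 1 * 1 * M := by
            gcongr
            · exact v.nr_nonneg B
            · exact v.nr_ofNat 8
        _ ≤ M ^ 4 := by linarith
    · rw [v.nr_pow]
      exact (pow_le_one₀ (v.nr_nonneg _) hA).trans p0
  · rw [v.nr_mul]
    have h4 : v.nr 4 ≤ 1 := v.nr_ofNat 4
    refine (mul_le_of_le_one_left (v.nr_nonneg _) h4).trans ?_
    unfold cu
    refine (v.nr_add_le _ _).trans (max_le ((v.nr_add_le _ _).trans (max_le ?_ ?_)) ?_)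
    · rw [v.nr_pow]
      exact (q1 3).trans p3
    · rw [v.nr_mul]
      exact ((mul_le_of_le_one_left hx0 hA).trans hxM).trans p1
    · exact hB.trans p0

theorem st_KGO2 : ST_KGO2 := by
  intro F _ _ v h2 A B hA hB hD x y h k hk
  refine le_antisymm (st_KGO F v h2 A B hA hB hD x y h k hk) ?_
  have hy := h.yne k hk
  have hc := h.curve k hk
  have hcu : cu A B (x k) = y k ^ 2 := by rw [hc]; unfold cu; ring
  have hcu0 : cu A B (x k) ≠ 0 := by rw [hcu]; exact pow_ne_zero 2 hy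
  have h40 : (4 * cu A B (x k)) ≠ 0 := mul_ne_zero (by norm_num) hcu0
  have hpos : 0 < v.nr (4 * cu A B (x k)) := v.nr_pos h40
  have hdbl := kgo_dbl h hk
  have e1 : max (v.nr (x (2 * k))) 1 * v.nr (4 * cu A B (x k))
      = max (v.nr (th A B (x k))) (v.nr (4 * cu A B (x k))) := by
    rw [max_mul_of_nonneg _ _ hpos.le, one_mul, ← v.nr_mul, hdbl]
  have key := kgo2_up v hA hB (x k)
  have hm1 : 0 < max (v.nr (x k)) 1 := lt_max_of_lt_right one_pos
  have hm2 : 0 < max (v.nr (x (2 * k))) 1 := lt_max_of_lt_right one_pos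
  rw [← Real.log_mul hm2.ne' hpos.ne', e1]
  have e3 : 4 * Real.log (max (v.nr (x k)) 1) = Real.log ((max (v.nr (x k)) 1) ^ 4) := by
    rw [Real.log_pow]; norm_num
  rw [e3]
  exact Real.log_le_log (lt_of_lt_of_le hpos (le_max_right _ _)) key

end Pool.Agent.Helper92.LV
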