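import Pool.Agent.Helper92.LV.Stmts
import Pool.Agent.Helper71.LK.KGO
import Pool.Agent.Helper95.LK.KPM

/-!
# QCI : points near the origin at a finite place (MP_9a3c31_nt)
-/

namespace Pool.Agent.Helper92.LV

open Pool.Agent.Helper42.LS Pool.Agent.Helper42.LK Pool.Agent.Helper54.LS

/-- real form of the argument: `P`, `Q` the sizes of `X3`, `X4`, `R` the size of `X3 + X4` -/
theorem qci_real {a b P Q D R : ℝ} (hb : 1 < b) (hab : b ≤ a) (hD : 0 < D) (hDa : D ≤ a)
    (hP : 0 ≤ P) (hprod : P * Q * D ^ 2 = (a * b) ^ 2)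
    (hsum : R * D ^ 2 ≤ a ^ 2 * b) (hR : Q < P → R = P) : b ≤ Q := by
  by_contra hlt
  push Not at hlt
  have ha : 0 < a := by linarith
  have hb0 : 0 < b := by linarith
  have hD2 : 0 < D ^ 2 := by positivity
  have h1 : a ^ 2 * b < P * D ^ 2 := by
    have h2 : b * (a ^ 2 * b) = Q * (P * D ^ 2) := by linarith [hprod]
    have h3 : 0 < P * D ^ 2 := by
      rcases (mul_nonneg hP hD2.le).eq_or_lt with h | h
      · rw [← h] at h2
        have : 0 < b * (a ^ 2 * b) := by positivity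
        linarith
      · exact h
    have h4 : b * (a ^ 2 * b) < b * (P * D ^ 2) := by
      rw [h2]
      exact mul_lt_mul_of_pos_right hlt h3
    exact lt_of_mul_lt_mul_left h4 hb0.le
  have h5 : b < P := by
    have h6 : D ^ 2 ≤ a ^ 2 := pow_le_pow_left₀ hD.le hDa 2
    have h7 : P * D ^ 2 ≤ P * a ^ 2 := mul_le_mul_of_nonneg_left h6 hP
    have h8 : a ^ 2 * b < a ^ 2 * P := by linarith
    exact lt_of_mul_lt_mul_left h8 (by positivity)
  rw [hR (hlt.trans h5)] at hsum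
  linarith

theorem qci_field {F : Type} [Field F] (v : DV F) {A B X1 X2 X3 X4 : F} (hA : v.nr A ≤ 1)
    (hB : v.nr B ≤ 1) (hne : X1 ≠ X2)
    (hs : (X3 + X4) * (X1 - X2) ^ 2 = 2 * ((X1 + X2) * (A + X1 * X2) + 2 * B))
    (hp : X3 * X4 * (X1 - X2) ^ 2 = (X1 * X2 - A) ^ 2 - 4 * B * (X1 + X2))
    (h1 : 1 < v.nr X2) (h12 : v.nr X2 ≤ v.nr X1) : v.nr X2 ≤ v.nr X3 ∧ v.nr X2 ≤ v.nr X4 := by
  set a := v.nr X1 with ha
  set b := v.nr X2 with hb
  have hb0 : 0 < b := by linarith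
  have ha1 : 1 < a := by linarith
  have hab1 : 1 < a * b := by nlinarith
  have haab : a < a * b := by nlinarith
  have hD : 0 < v.nr (X1 - X2) := v.nr_pos (sub_ne_zero.2 hne)
  have hDa : v.nr (X1 - X2) ≤ a := (v.nr_sub_le _ _).trans (max_le le_rfl h12)
  have h2 : v.nr 2 ≤ 1 := v.nr_ofNat 2
  have h4 : v.nr 4 ≤ 1 := v.nr_ofNat 4
  have hX12 : v.nr (X1 * X2) = a * b := v.nr_mul _ _
  have hsub : v.nr (X1 * X2 - A) = a * b := by
    rw [sub_eq_add_neg, v.nr_add_eq_left, hX12]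
    rw [v.nr_neg, hX12]
    linarith
  have hadd : v.nr (A + X1 * X2) = a * b := by
    rw [v.nr_add_eq_right, hX12]
    rw [hX12]
    linarith
  have hXs : v.nr (X1 + X2) ≤ a := (v.nr_add_le _ _).trans (max_le le_rfl h12)
  have hsq : a * b < (a * b) ^ 2 := by nlinarith
  have hprod : v.nr X3 * v.nr X4 * v.nr (X1 - X2) ^ 2 = (a * b) ^ 2 := by
    rw [← v.nr_mul, ← v.nr_pow, ← v.nr_mul, hp, sub_eq_add_neg, v.nr_add_eq_left, v.nr_pow, hsub]
    rw [v.nr_neg, v.nr_pow, hsub, v.nr_mul, v.nr_mul]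
    calc v.nr 4 * v.nr B * v.nr (X1 + X2) ≤ 1 * 1 * a := by
          gcongr
          · exact v.nr_nonneg (X1 + X2)
          · exact v.nr_nonneg B
      _ < (a * b) ^ 2 := by linarith
  have hsum : v.nr (X3 + X4) * v.nr (X1 - X2) ^ 2 ≤ a ^ 2 * b := by
    rw [← v.nr_pow, ← v.nr_mul, hs, v.nr_mul]
    refine (mul_le_of_le_one_left (v.nr_nonneg _) h2).trans ?_
    refine (v.nr_add_le _ _).trans (max_le ?_ ?_)
    · rw [v.nr_mul, hadd]
      calc v.nr (X1 + X2) * (a * b) ≤ a * (a * b) := by gcongr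
        _ = a ^ 2 * b := by ring
    · rw [v.nr_mul]
      calc v.nr 2 * v.nr B ≤ 1 * 1 := by
            gcongr
            exact v.nr_nonneg B
        _ ≤ a ^ 2 * b := by nlinarith
  constructor
  · refine qci_real (P := v.nr X4) (Q := v.nr X3) (R := v.nr (X3 + X4)) h1 h12 hD hDa
      (v.nr_nonneg _) ?_ hsum (fun h => v.nr_add_eq_right h)
    rw [← hprod]
    ring
  · exact qci_real (P := v.nr X3) (Q := v.nr X4) (R := v.nr (X3 + X4)) h1 h12 hD hDa
      (v.nr_nonneg _) hprod hsum (fun h => v.nr_add_eq_left h)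

/-- both orders -/
theorem qci_field' {F : Type} [Field F] (v : DV F) {A B X1 X2 X3 X4 : F} (hA : v.nr A ≤ 1)
    (hB : v.nr B ≤ 1) (hne : X1 ≠ X2)
    (hs : (X3 + X4) * (X1 - X2) ^ 2 = 2 * ((X1 + X2) * (A + X1 * X2) + 2 * B))
    (hp : X3 * X4 * (X1 - X2) ^ 2 = (X1 * X2 - A) ^ 2 - 4 * B * (X1 + X2)) :
    min (max (v.nr X1) 1) (max (v.nr X2) 1) ≤ max (v.nr X3) 1 ∧
    min (max (v.nr X1) 1) (max (v.nr X2) 1) ≤ max (v.nr X4) 1 := by
  by_cases h1 : v.nr X1 ≤ 1
  · rw [max_eq_right h1]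
    exact ⟨(min_le_left _ _).trans (le_max_right _ _), (min_le_left _ _).trans (le_max_right _ _)⟩
  by_cases h2 : v.nr X2 ≤ 1
  · rw [max_eq_right h2]
    exact ⟨(min_le_right _ _).trans (le_max_right _ _), (min_le_right _ _).trans (le_max_right _ _)⟩
  push Not at h1 h2
  rw [max_eq_left h1.le, max_eq_left h2.le]
  rcases le_total (v.nr X2) (v.nr X1) with h | h
  · rw [min_eq_right h]
    obtain ⟨g1, g2⟩ := qci_field v hA hB hne hs hp h2 h
    exact ⟨g1.trans (le_max_left _ _), g2.trans (le_max_left _ _)⟩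
  · rw [min_eq_left h]
    obtain ⟨g1, g2⟩ := qci_field v hA hB (X3 := X3) (X4 := X4) hne.symm
      (by linear_combination hs) (by linear_combination hp) h1 h
    exact ⟨g1.trans (le_max_left _ _), g2.trans (le_max_left _ _)⟩

theorem qci_dbl {F : Type} [Field F] [CharZero F] (v : DV F) {A B : F} (hA : v.nr A ≤ 1)
    (hB : v.nr B ≤ 1) {x y : ℕ → F} (h : GSeq (0 : F) A B x y) {k : ℕ} (hk : 1 ≤ k) :
    max (v.nr (x k)) 1 ≤ max (v.nr (x (2 * k))) 1 := by
  rcases le_or_gt (v.nr (x k)) 1 with hx | hx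
  · rw [max_eq_right hx]
    exact le_max_right _ _
  rw [max_eq_left hx.le]
  refine le_max_of_le_left ?_
  have hy := h.yne k hk
  have hc := h.curve k hk
  have hcu : cu A B (x k) = y k ^ 2 := by rw [hc]; unfold cu; ring
  have hcu0 : cu A B (x k) ≠ 0 := by rw [hcu]; exact pow_ne_zero 2 hy
  have h40 : (4 * cu A B (x k)) ≠ 0 := mul_ne_zero (by norm_num) hcu0
  have hpos : 0 < v.nr (4 * cu A B (x k)) := v.nr_pos h40
  have hdbl := kgo_dbl h hk
  set X := v.nr (x k) with hX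
  have hX0 : 0 ≤ X := by linarith
  have p2 : X ^ 2 < X ^ 4 := pow_lt_pow_right₀ hx (by norm_num)
  have p1 : X < X ^ 4 := by
    calc X = X ^ 1 := (pow_one _).symm
      _ < _ := pow_lt_pow_right₀ hx (by norm_num)
  have p0 : 1 < X ^ 4 := one_lt_pow₀ hx (by norm_num)
  have p3 : 1 ≤ X ^ 3 := one_le_pow₀ hx.le
  have p13 : X ≤ X ^ 3 := le_self_pow₀ hx.le (by norm_num)
  have eth : v.nr (th A B (x k)) = X ^ 4 := by
    have e2 : th A B (x k) = x k ^ 4 + (-(2 * A * x k ^ 2) + (-(8 * B * x k) + A ^ 2)) := by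
      unfold th; ring
    rw [e2, v.nr_add_eq_left, v.nr_pow]
    rw [v.nr_pow]
    refine lt_of_le_of_lt (v.nr_add_le _ _) (max_lt ?_
      (lt_of_le_of_lt (v.nr_add_le _ _) (max_lt ?_ ?_)))
    · rw [v.nr_neg, v.nr_mul, v.nr_mul, v.nr_pow]
      calc v.nr 2 * v.nr A * v.nr (x k) ^ 2 ≤ 1 * 1 * X ^ 2 := by
            gcongr
            · exact v.nr_nonneg A
            · exact v.nr_ofNat 2
        _ < X ^ 4 := by linarith
    · rw [v.nr_neg, v.nr_mul, v.nr_mul]
      calc v.nr 8 * v.nr B * v.nr (x k) ≤ 1 * 1 * X := by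
            gcongr
            · exact v.nr_nonneg B
            · exact v.nr_ofNat 8
        _ < X ^ 4 := by linarith
    · rw [v.nr_pow]
      exact lt_of_le_of_lt (pow_le_one₀ (v.nr_nonneg _) hA) p0
  have ecu : v.nr (4 * cu A B (x k)) ≤ X ^ 3 := by
    rw [v.nr_mul]
    refine (mul_le_of_le_one_left (v.nr_nonneg _) (v.nr_ofNat 4)).trans ?_
    unfold cu
    refine (v.nr_add_le _ _).trans (max_le ((v.nr_add_le _ _).trans (max_le ?_ ?_)) ?_)
    · rw [v.nr_pow]
    · rw [v.nr_mul]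
      exact (mul_le_of_le_one_left hX0 hA).trans p13
    · exact hB.trans p3
  have e3 : v.nr (x (2 * k)) * v.nr (4 * cu A B (x k)) = X ^ 4 := by
    rw [← v.nr_mul, hdbl, eth]
  have e4 : X * v.nr (4 * cu A B (x k)) ≤ v.nr (x (2 * k)) * v.nr (4 * cu A B (x k)) := by
    rw [e3]
    calc X * v.nr (4 * cu A B (x k)) ≤ X * X ^ 3 := by gcongr
      _ = X ^ 4 := by ring
  exact le_of_mul_le_mul_right e4 hpos

theorem st_QCI : ST_QCI := by
  intro F _ _ v A B hA hB x y h
  have hlog : ∀ a b c : ℝ, min (max a 1) (max b 1) ≤ max c 1 →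
      min (Real.log (max a 1)) (Real.log (max b 1)) - 0 ≤ Real.log (max c 1) := by
    intro a b c hc
    rw [sub_zero]
    have ha : 0 < max a 1 := lt_max_of_lt_right one_pos
    have hb : 0 < max b 1 := lt_max_of_lt_right one_pos
    rcases le_total (max a 1) (max b 1) with h1 | h1
    · rw [min_eq_left h1] at hc
      exact (min_le_left _ _).trans (Real.log_le_log ha hc)
    · rw [min_eq_right h1] at hc
      exact (min_le_right _ _).trans (Real.log_le_log hb hc)
  have main : ∀ k l : ℕ, 1 ≤ l → l < k →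
      min (max (v.nr (x k)) 1) (max (v.nr (x l)) 1) ≤ max (v.nr (x (k + l))) 1 ∧
      min (max (v.nr (x k)) 1) (max (v.nr (x l)) 1) ≤ max (v.nr (x (k - l))) 1 := by
    intro k l hl hlk
    have hne := h.xne k l hl hlk
    obtain ⟨s1, s2⟩ := kpm_sp 0 A B (x k) (x l) (x (k + l)) (x (k - l)) (y k) (y l) hne
      (h.curve k (by omega)) (h.curve l hl) (h.addx k l hl hlk) (h.subx k l hl hlk)
    refine qci_field' v hA hB hne (by linear_combination s1) (by linear_combination s2)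
  refine ⟨fun k _ => Real.log_nonneg (le_max_right _ _), ?_, ?_⟩
  · intro k l hk hl
    apply hlog
    rcases lt_trichotomy k l with hkl | hkl | hkl
    · rw [min_comm, add_comm k l]
      exact (main l k hk hkl).1
    · subst hkl
      rw [min_self, ← two_mul]
      exact qci_dbl v hA hB h hk
    · exact (main k l hl hkl).1
  · intro k l hl hlk
    apply hlog
    exact (main k l hl hlk).2

end Pool.Agent.Helper92.LV
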